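import Pool.Agent.H38.PS.Targets
import Pool.Agent.H38.AE.Rad
import Pool.Agent.H69.AE.J1
import Pool.Agent.H74.AE.A

/-!
# The admissible triples of small height with small radical
-/

set_option autoImplicit false

namespace Pool.Agent.H6.PS

open Pool.Agent.H38.RB Pool.Agent.H38.PS
open Pool.Agent.H38.AE (rad RR Tri ST)

theorem ST_finite (H : ℕ) (Z : ℝ) : (ST H Z).Finite := by
  refine Set.Finite.subset (((Set.finite_Icc (-(H : ℤ)) H).prod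
    ((Set.finite_Icc (-(H : ℤ)) H).prod (Set.finite_Icc (-(H : ℤ)) H)))) ?_
  rintro ⟨a, b, c⟩ ⟨⟨_, _, _, _, _, _, _, h1, h2, h3⟩, _⟩
  exact ⟨abs_le.1 h1, abs_le.1 h2, abs_le.1 h3⟩

theorem rad_pr {x : Fin 3 → ℤ} (hx : Adm x) :
    (pd (pr x).primeFactors : ℝ) = RR (x 0) * RR (x 1) * RR (x 2) := by
  have h01 : (x 0).natAbs.Coprime (x 1).natAbs := Int.isCoprime_iff_nat_coprime.1 (hx.2.1 0 1 (by decide))
  have h02 : (x 0).natAbs.Coprime (x 2).natAbs := Int.isCoprime_iff_nat_coprime.1 (hx.2.1 0 2 (by decide))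
  have h12 : (x 1).natAbs.Coprime (x 2).natAbs := Int.isCoprime_iff_nat_coprime.1 (hx.2.1 1 2 (by decide))
  have h1 : pd (pr x).primeFactors = rad (pr x) := rfl
  have h2 : pr x = (x 0).natAbs * (x 1).natAbs * (x 2).natAbs := by
    unfold pr
    rw [Int.natAbs_mul, Int.natAbs_mul]
  rw [h1, h2, Pool.Agent.H38.AE.rad_mul (Nat.Coprime.mul_left h02 h12),
    Pool.Agent.H38.AE.rad_mul h01]
  push_cast
  rfl

theorem two_of_three {a b c X : ℝ} (ha : 0 < a) (hb : 0 < b) (hc : 0 < c) (hX : 1 ≤ X)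
    (h : a * b * c ≤ X) :
    a * b ≤ X ^ (2 / 3 : ℝ) ∨ a * c ≤ X ^ (2 / 3 : ℝ) ∨ b * c ≤ X ^ (2 / 3 : ℝ) := by
  by_contra hcon
  push Not at hcon
  obtain ⟨h1, h2, h3⟩ := hcon
  set Z : ℝ := X ^ (2 / 3 : ℝ) with hZ
  have hZ0 : 0 < Z := Real.rpow_pos_of_pos (by linarith) _
  have hZ3 : Z ^ 3 = X ^ 2 := by
    rw [hZ, ← Real.rpow_natCast, ← Real.rpow_mul (by linarith), ← Real.rpow_natCast]
    norm_num
  have h4 : Z * Z < a * b * (a * c) := mul_lt_mul'' h1 h2 hZ0.le hZ0.le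
  have h5 : Z * Z * Z < a * b * (a * c) * (b * c) := mul_lt_mul'' h4 h3 (by positivity) hZ0.le
  have h6 : a * b * (a * c) * (b * c) = (a * b * c) ^ 2 := by ring
  have h7 : (a * b * c) ^ 2 ≤ X ^ 2 := pow_le_pow_left₀ (by positivity) h 2
  have h8 : Z * Z * Z = Z ^ 3 := by ring
  rw [h8, hZ3, h6] at h5
  exact absurd h7 (not_le.2 h5)

theorem pf_SM : T_SM := by
  intro A ε hA hε
  have hA0 : 0 < A := by linarith
  obtain ⟨C, hC, hJ⟩ := Pool.Agent.H69.AE.pf_J1 Pool.Agent.H74.AE.A.pf_A (ε / A)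
    (div_pos hε hA0)
  refine ⟨3 * C, by positivity, ?_⟩
  intro X hX
  have hX0 : 0 < X := by linarith
  set H : ℕ := ⌊X ^ A⌋₊ with hH
  set Z : ℝ := X ^ (2 / 3 : ℝ) with hZ
  have hZ0 : 0 ≤ Z := Real.rpow_nonneg hX0.le _
  have hXA : 1 ≤ X ^ A := Real.one_le_rpow hX hA0.le
  have hH1 : 1 ≤ H := Nat.le_floor (by exact_mod_cast hXA)
  have hHX : (H : ℝ) ≤ X ^ A := Nat.floor_le (by linarith)
  let φ₁ : (Fin 3 → ℤ) → ℤ × ℤ × ℤ := fun x => (x 0, x 1, x 2)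
  let φ₂ : (Fin 3 → ℤ) → ℤ × ℤ × ℤ := fun x => (x 0, x 2, x 1)
  let φ₃ : (Fin 3 → ℤ) → ℤ × ℤ × ℤ := fun x => (x 1, x 2, x 0)
  have hφ₁ : Function.Injective φ₁ := by
    intro x y h
    simp only [φ₁, Prod.mk.injEq] at h
    funext i
    fin_cases i
    · exact h.1
    · exact h.2.1
    · exact h.2.2
  have hφ₂ : Function.Injective φ₂ := by
    intro x y h
    simp only [φ₂, Prod.mk.injEq] at h
    funext i
    fin_cases i
    · exact h.1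
    · exact h.2.2
    · exact h.2.1
  have hφ₃ : Function.Injective φ₃ := by
    intro x y h
    simp only [φ₃, Prod.mk.injEq] at h
    funext i
    fin_cases i
    · exact h.2.2
    · exact h.1
    · exact h.2.1
  set S : Set (Fin 3 → ℤ) := {x | Adm x ∧ (pd (pr x).primeFactors : ℝ) ≤ X ∧
    Real.log (ht x) ≤ A * Real.log X} with hS
  have hsub : S ⊆ φ₁ ⁻¹' ST H Z ∪ (φ₂ ⁻¹' ST H Z ∪ φ₃ ⁻¹' ST H Z) := by
    rintro x ⟨hx, hr, hl⟩
    have hht : (ht x : ℝ) ≤ X ^ A := by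
      have h0 : 0 < ht x := lt_of_lt_of_le (Int.natAbs_pos.2 (hx.1 0)) (le_max_left _ _)
      have h0' : (0 : ℝ) < ht x := by exact_mod_cast h0
      rw [← Real.log_rpow hX0] at hl
      exact (Real.log_le_log_iff h0' (by positivity)).1 hl
    have hhH : ht x ≤ H := Nat.le_floor hht
    have hb : ∀ i, |x i| ≤ (H : ℤ) := by
      intro i
      have h1 : (x i).natAbs ≤ ht x := by
        fin_cases i
        · exact le_max_left _ _
        · exact (le_max_left _ _).trans (le_max_right _ _)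
        · exact (le_max_right _ _).trans (le_max_right _ _)
      rw [Int.abs_eq_natAbs]
      exact_mod_cast h1.trans hhH
    rw [rad_pr hx] at hr
    have hs : x 0 + x 1 + x 2 = 0 := hx.2.2
    have c01 := hx.2.1 0 1 (by decide)
    have c02 := hx.2.1 0 2 (by decide)
    have c12 := hx.2.1 1 2 (by decide)
    rcases two_of_three (Pool.Agent.H38.AE.RR_pos _) (Pool.Agent.H38.AE.RR_pos _)
      (Pool.Agent.H38.AE.RR_pos _) hX hr with h | h | h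
    · exact Or.inl ⟨⟨hx.1 0, hx.1 1, hx.1 2, c01, c02, c12, hs, hb 0, hb 1, hb 2⟩, h⟩
    · refine Or.inr (Or.inl ⟨⟨hx.1 0, hx.1 2, hx.1 1, c02, c01, c12.symm, ?_, hb 0, hb 2, hb 1⟩, h⟩)
      show x 0 + x 2 + x 1 = 0
      linarith
    · refine Or.inr (Or.inr ⟨⟨hx.1 1, hx.1 2, hx.1 0, c12, c01.symm, c02.symm, ?_, hb 1, hb 2,
        hb 0⟩, h⟩)
      show x 1 + x 2 + x 0 = 0
      linarith
  have hfin := ST_finite H Z
  have hf₁ : (φ₁ ⁻¹' ST H Z).Finite := hfin.preimage hφ₁.injOn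
  have hf₂ : (φ₂ ⁻¹' ST H Z).Finite := hfin.preimage hφ₂.injOn
  have hf₃ : (φ₃ ⁻¹' ST H Z).Finite := hfin.preimage hφ₃.injOn
  have hU : (φ₁ ⁻¹' ST H Z ∪ (φ₂ ⁻¹' ST H Z ∪ φ₃ ⁻¹' ST H Z)).Finite := hf₁.union (hf₂.union hf₃)
  refine ⟨hU.subset hsub, ?_⟩
  have n₁ : (φ₁ ⁻¹' ST H Z).ncard ≤ (ST H Z).ncard :=
    Set.ncard_le_ncard_of_injOn φ₁ (fun x hx => hx) hφ₁.injOn hfin
  have n₂ : (φ₂ ⁻¹' ST H Z).ncard ≤ (ST H Z).ncard :=
    Set.ncard_le_ncard_of_injOn φ₂ (fun x hx => hx) hφ₂.injOn hfin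
  have n₃ : (φ₃ ⁻¹' ST H Z).ncard ≤ (ST H Z).ncard :=
    Set.ncard_le_ncard_of_injOn φ₃ (fun x hx => hx) hφ₃.injOn hfin
  have hn : S.ncard ≤ 3 * (ST H Z).ncard := by
    have h1 := Set.ncard_le_ncard hsub hU
    have h2 := Set.ncard_union_le (φ₁ ⁻¹' ST H Z) (φ₂ ⁻¹' ST H Z ∪ φ₃ ⁻¹' ST H Z)
    have h3 := Set.ncard_union_le (φ₂ ⁻¹' ST H Z) (φ₃ ⁻¹' ST H Z)
    omega
  have hn' : (S.ncard : ℝ) ≤ 3 * ((ST H Z).ncard : ℝ) := by exact_mod_cast hn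
  have hj := hJ H Z hH1 hZ0
  have hp : (H : ℝ) ^ (ε / A) ≤ X ^ ε := by
    refine (Real.rpow_le_rpow (Nat.cast_nonneg _) hHX (by positivity)).trans (le_of_eq ?_)
    rw [← Real.rpow_mul hX0.le]
    congr 1
    field_simp
  have he : X ^ (2 / 3 + ε) = Z * X ^ ε := by rw [hZ, ← Real.rpow_add hX0]
  rw [he]
  calc (S.ncard : ℝ) ≤ 3 * ((ST H Z).ncard : ℝ) := hn'
    _ ≤ 3 * (C * (H : ℝ) ^ (ε / A) * Z) := by linarith
    _ ≤ 3 * (C * X ^ ε * Z) := by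
        have := mul_le_mul_of_nonneg_right (mul_le_mul_of_nonneg_left hp hC.le) hZ0
        linarith
    _ = 3 * C * (Z * X ^ ε) := by ring

end Pool.Agent.H6.PS
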